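import Pool.Agent.Y141.OJ.Rt

/-!
The derivative of `log |ζ|` on horizontal lines (project OJ of helper746, by helper141).
-/

set_option autoImplicit false

namespace Pool.Agent.Y141.OJ

open MeasureTheory Filter Topology Set

theorem ne_one_of {σ y : ℝ} (hy : y ≠ 0) : ((σ : ℂ) + (y : ℂ) * Complex.I) ≠ 1 := by
  intro h
  have := congrArg Complex.im h
  simp at this
  exact hy this

theorem hasDeriv_zeta {y : ℝ} (hy : y ≠ 0) (σ : ℝ) :
    HasDerivAt (fun u : ℝ => riemannZeta ((u : ℂ) + (y : ℂ) * Complex.I))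
      (deriv riemannZeta ((σ : ℂ) + (y : ℂ) * Complex.I)) σ := by
  have h1 := (differentiableAt_riemannZeta (ne_one_of (σ := σ) hy)).hasDerivAt
  have h2 : HasDerivAt (fun u : ℂ => u + (y : ℂ) * Complex.I) 1 (σ : ℂ) :=
    (hasDerivAt_id _).add_const _
  have h3 := h1.comp (σ : ℂ) h2
  rw [mul_one] at h3
  exact h3.comp_ofReal

theorem hasDeriv_log {y σ : ℝ} (hy : y ≠ 0)
    (hz : riemannZeta ((σ : ℂ) + (y : ℂ) * Complex.I) ≠ 0) :
    HasDerivAt (fun u : ℝ => Real.log ‖riemannZeta ((u : ℂ) + (y : ℂ) * Complex.I)‖)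
      ((deriv riemannZeta ((σ : ℂ) + (y : ℂ) * Complex.I) /
        riemannZeta ((σ : ℂ) + (y : ℂ) * Complex.I)).re) σ := by
  have h1 := (hasDeriv_zeta hy σ).norm_sq
  have h2 : ‖riemannZeta ((σ : ℂ) + (y : ℂ) * Complex.I)‖ ^ 2 ≠ 0 :=
    pow_ne_zero 2 (norm_ne_zero_iff.2 hz)
  have h3 := (h1.log h2).const_mul (1 / 2 : ℝ)
  have e : (fun u : ℝ => Real.log ‖riemannZeta ((u : ℂ) + (y : ℂ) * Complex.I)‖) =
      fun u : ℝ => 1 / 2 * Real.log (‖riemannZeta ((u : ℂ) + (y : ℂ) * Complex.I)‖ ^ 2) := by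
    funext u
    rw [Real.log_pow]
    push_cast
    ring
  have h4 : (deriv riemannZeta ((σ : ℂ) + (y : ℂ) * Complex.I) /
        riemannZeta ((σ : ℂ) + (y : ℂ) * Complex.I)).re =
      1 / 2 * (2 * inner ℝ (riemannZeta ((σ : ℂ) + (y : ℂ) * Complex.I))
        (deriv riemannZeta ((σ : ℂ) + (y : ℂ) * Complex.I)) /
        ‖riemannZeta ((σ : ℂ) + (y : ℂ) * Complex.I)‖ ^ 2) := by
    have h5 : Complex.normSq (riemannZeta ((σ : ℂ) + (y : ℂ) * Complex.I)) ≠ 0 := by
      rw [Complex.normSq_eq_norm_sq]; exact h2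
    rw [Complex.inner, ← Complex.normSq_eq_norm_sq, Complex.div_re, Complex.mul_re]
    simp only [Complex.conj_re, Complex.conj_im]
    field_simp
    ring
  rw [e, h4]
  exact h3

theorem cont_quot {y a b : ℝ} (hy : y ≠ 0)
    (hz : ∀ σ ∈ Icc a b, riemannZeta ((σ : ℂ) + (y : ℂ) * Complex.I) ≠ 0) :
    ContinuousOn (fun σ : ℝ => (deriv riemannZeta ((σ : ℂ) + (y : ℂ) * Complex.I) /
        riemannZeta ((σ : ℂ) + (y : ℂ) * Complex.I)).re) (Icc a b) := by
  intro σ hσ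
  have hd : DifferentiableAt ℂ (deriv riemannZeta) ((σ : ℂ) + (y : ℂ) * Complex.I) := by
    have h1 : DifferentiableOn ℂ riemannZeta {1}ᶜ := fun z hz =>
      (differentiableAt_riemannZeta hz).differentiableWithinAt
    have h2 := (h1.deriv isOpen_compl_singleton)
    exact (h2 _ (ne_one_of hy)).differentiableAt (isOpen_compl_singleton.mem_nhds (ne_one_of hy))
  have hc : ContinuousAt (fun u : ℝ => (u : ℂ) + (y : ℂ) * Complex.I) σ := by fun_prop
  have h1 : ContinuousAt (fun u : ℝ => deriv riemannZeta ((u : ℂ) + (y : ℂ) * Complex.I)) σ :=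
    ContinuousAt.comp (f := fun u : ℝ => (u : ℂ) + (y : ℂ) * Complex.I) hd.continuousAt hc
  have h2 : ContinuousAt (fun u : ℝ => riemannZeta ((u : ℂ) + (y : ℂ) * Complex.I)) σ :=
    (hasDeriv_zeta hy σ).continuousAt
  exact (Complex.continuous_re.continuousAt.comp (h1.div h2 (hz σ hσ))).continuousWithinAt

theorem parts {y : ℝ} (hy : y ≠ 0) {a b : ℝ} (hab : a ≤ b)
    (hz : ∀ σ ∈ Icc a b, riemannZeta ((σ : ℂ) + (y : ℂ) * Complex.I) ≠ 0) :
    ∫ σ in a..b, Real.log ‖riemannZeta ((σ : ℂ) + (y : ℂ) * Complex.I)‖ =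
      (b - a) * Real.log ‖riemannZeta ((b : ℂ) + (y : ℂ) * Complex.I)‖ -
        ∫ σ in a..b, (σ - a) * (deriv riemannZeta ((σ : ℂ) + (y : ℂ) * Complex.I) /
          riemannZeta ((σ : ℂ) + (y : ℂ) * Complex.I)).re := by
  have h := intervalIntegral.integral_mul_deriv_eq_deriv_mul (a := a) (b := b)
    (u := fun σ : ℝ => Real.log ‖riemannZeta ((σ : ℂ) + (y : ℂ) * Complex.I)‖)
    (v := fun σ : ℝ => σ - a)
    (u' := fun σ : ℝ => (deriv riemannZeta ((σ : ℂ) + (y : ℂ) * Complex.I) /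
          riemannZeta ((σ : ℂ) + (y : ℂ) * Complex.I)).re) (v' := fun _ => 1)
    (fun σ hσ => hasDeriv_log hy (hz σ (by rwa [uIcc_of_le hab] at hσ)))
    (fun σ _ => (hasDerivAt_id σ).sub_const a)
    ((cont_quot hy hz).intervalIntegrable_of_Icc hab) intervalIntegrable_const
  simp only [mul_one, sub_self, mul_zero, sub_zero] at h
  rw [h]
  congr 1
  · ring
  · refine intervalIntegral.integral_congr fun σ _ => ?_
    exact mul_comm _ _

end Pool.Agent.Y141.OJ
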