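import Pool.Agent.Y746.OJ.Stm
import Pool.Agent.Y141.OJ.Dv

/-!
Integration by parts, and the part of the half line to the right of `3/2`
(project OJ of helper746, by helper141).
-/

set_option autoImplicit false

namespace Pool.Agent.Y141.OJ

open MeasureTheory Filter Topology Set
open Pool.Agent.Y746.OJ

theorem t_JP : Pool.Agent.Y746.OJ.S_JP := by
  intro y hy hz
  have h := parts (y := y) (by linarith) (a := 1 / 2) (b := 3 / 2) (by norm_num)
    (fun σ hσ => hz σ hσ.1 hσ.2)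
  unfold J0 LD pt
  rw [h]
  norm_num

theorem cont_LD {y : ℝ} (hy : y ≠ 0) {s : Set ℝ}
    (hz : ∀ σ ∈ s, riemannZeta (pt σ y) ≠ 0) : ContinuousOn (fun σ : ℝ => LD (pt σ y)) s := by
  intro σ hσ
  have hd : DifferentiableAt ℂ (deriv riemannZeta) ((σ : ℂ) + (y : ℂ) * Complex.I) := by
    have h1 : DifferentiableOn ℂ riemannZeta {1}ᶜ := fun z hz =>
      (differentiableAt_riemannZeta hz).differentiableWithinAt
    have h2 := (h1.deriv isOpen_compl_singleton)
    exact (h2 _ (ne_one_of hy)).differentiableAt (isOpen_compl_singleton.mem_nhds (ne_one_of hy))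
  have hc : ContinuousAt (fun u : ℝ => (u : ℂ) + (y : ℂ) * Complex.I) σ := by fun_prop
  have h1 : ContinuousAt (fun u : ℝ => deriv riemannZeta ((u : ℂ) + (y : ℂ) * Complex.I)) σ :=
    ContinuousAt.comp (f := fun u : ℝ => (u : ℂ) + (y : ℂ) * Complex.I) hd.continuousAt hc
  have h2 : ContinuousAt (fun u : ℝ => riemannZeta ((u : ℂ) + (y : ℂ) * Complex.I)) σ :=
    (hasDeriv_zeta hy σ).continuousAt
  exact (h1.div h2 (hz σ hσ)).continuousWithinAt

/-- the contribution of the half line to the right of `3/2` -/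
theorem right_part {f : ℝ → ℝ} {C : ℝ} (hc : ContinuousOn f (Ici (1 / 2)))
    (hb : ∀ σ : ℝ, 3 / 2 ≤ σ → |f σ| ≤ C * 2 ^ (-σ)) :
    |(∫ σ in Ioi (1 / 2 : ℝ), f σ) - ∫ σ in (1 / 2 : ℝ)..(3 / 2), f σ| ≤
      ∫ σ in Ioi (3 / 2 : ℝ), C * 2 ^ (-σ) := by
  have hg : IntegrableOn (fun σ : ℝ => C * (2 : ℝ) ^ (-σ)) (Ioi (3 / 2)) := by
    have h1 : IntegrableOn (fun σ : ℝ => C * Real.exp (-Real.log 2 * σ)) (Ioi (3 / 2)) :=
      (exp_neg_integrableOn_Ioi (3 / 2) (Real.log_pos one_lt_two)).const_mul C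
    have e : (fun σ : ℝ => C * (2 : ℝ) ^ (-σ)) = fun σ : ℝ => C * Real.exp (-Real.log 2 * σ) := by
      funext σ
      rw [Real.rpow_def_of_pos two_pos]
      congr 2
      ring
    rw [e]
    exact h1
  have hm : AEStronglyMeasurable f (volume.restrict (Ioi (3 / 2))) :=
    (hc.mono fun σ hσ => by
      have : (3 / 2 : ℝ) < σ := hσ
      exact le_of_lt (lt_trans (by norm_num) this)).aestronglyMeasurable measurableSet_Ioi
  have hae : ∀ᵐ σ ∂(volume.restrict (Ioi (3 / 2 : ℝ))), ‖f σ‖ ≤ C * 2 ^ (-σ) := by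
    rw [ae_restrict_iff' measurableSet_Ioi]
    exact Eventually.of_forall fun σ hσ => hb σ (le_of_lt hσ)
  have hi2 : IntegrableOn f (Ioi (3 / 2)) := hg.mono' hm hae
  have hi1 : IntegrableOn f (Ioc (1 / 2) (3 / 2)) :=
    ((hc.mono Icc_subset_Ici_self).integrableOn_Icc).mono_set Ioc_subset_Icc_self
  have h1 : ∫ σ in Ioi (1 / 2 : ℝ), f σ =
      (∫ σ in Ioc (1 / 2 : ℝ) (3 / 2), f σ) + ∫ σ in Ioi (3 / 2 : ℝ), f σ := by
    rw [← Ioc_union_Ioi_eq_Ioi (show (1 / 2 : ℝ) ≤ 3 / 2 by norm_num)]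
    exact setIntegral_union Ioc_disjoint_Ioi_same measurableSet_Ioi hi1 hi2
  rw [h1, intervalIntegral.integral_of_le (by norm_num : (1 / 2 : ℝ) ≤ 3 / 2), add_sub_cancel_left]
  exact norm_integral_le_of_norm_le hg hae

theorem t_INF : Pool.Agent.Y746.OJ.S_INF := by
  obtain ⟨C, hC, hb⟩ := right_bd
  obtain ⟨D, hD⟩ : ∃ D : ℝ, D = ∫ σ in Ioi (3 / 2 : ℝ), C * 2 ^ (-σ) := ⟨_, rfl⟩
  have hD0 : 0 ≤ D := by
    rw [hD]
    exact setIntegral_nonneg measurableSet_Ioi fun σ _ => by positivity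
  refine ⟨D + 1, by linarith, fun y hy hz => ?_⟩
  have hy0 : y ≠ 0 := by linarith
  have hz' : ∀ σ ∈ Ici (1 / 2 : ℝ), riemannZeta (pt σ y) ≠ 0 := by
    intro σ hσ
    rcases le_or_gt σ (3 / 2) with h | h
    · exact hz σ hσ h
    · refine riemannZeta_ne_zero_of_one_lt_re ?_
      unfold pt
      simp
      linarith
  have hre : ∀ σ : ℝ, (pt σ y).re = σ := fun σ => by unfold pt; simp
  constructor
  · have h := right_part (f := fun σ : ℝ => Real.log ‖riemannZeta (pt σ y)‖) (C := C)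
      (fun σ hσ => (hasDeriv_log hy0 (hz' σ hσ)).continuousAt.continuousWithinAt)
      (fun σ hσ => by
        have := (hb (pt σ y) (by rw [hre]; exact hσ)).1
        rwa [hre] at this)
    unfold J J0
    rw [← hD] at h
    linarith
  · have h := right_part (f := fun σ : ℝ => (LD (pt σ y)).im) (C := C)
      (Complex.continuous_im.comp_continuousOn (cont_LD hy0 hz'))
      (fun σ hσ => by
        have := (hb (pt σ y) (by rw [hre]; exact hσ)).2
        rw [hre] at this
        exact (Complex.abs_im_le_norm _).trans this)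
    rw [← hD] at h
    unfold S S0
    rw [← mul_sub, abs_mul, abs_neg, abs_of_pos (by positivity : (0 : ℝ) < 1 / Real.pi)]
    have h1 : 1 / Real.pi ≤ 1 := by
      rw [div_le_one Real.pi_pos]
      linarith [Real.pi_gt_three]
    have h2 := mul_le_mul h1 h (abs_nonneg _) zero_le_one
    linarith

end Pool.Agent.Y141.OJ
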