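import Mathlib

/-!
Bounds for `log |ζ|` and `ζ' / ζ` on the right (project OJ of helper746, by helper141).
-/

set_option autoImplicit false

namespace Pool.Agent.Y141.OJ

open MeasureTheory Filter Topology Set
open scoped ArithmeticFunction

/-- comparison of Dirichlet series -/
theorem tail_le (g : ℕ → ℝ) (hg : ∀ n, 0 ≤ g n)
    (hs : Summable fun n : ℕ => g n / (n : ℝ) ^ (3 / 2 : ℝ)) {σ : ℝ} (hσ : 3 / 2 ≤ σ) :
    Summable (fun n : ℕ => g n / (n : ℝ) ^ σ) ∧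
    ∀ a : ℝ, a = g 1 → ∑' n : ℕ, g n / (n : ℝ) ^ σ ≤
      a + (2 : ℝ) ^ (-σ) * (2 ^ (3 / 2 : ℝ) * ∑' n : ℕ, g n / (n : ℝ) ^ (3 / 2 : ℝ)) := by
  have h0 : (0 : ℝ) < 2 ^ (-σ) * 2 ^ (3 / 2 : ℝ) := by positivity
  have key : ∀ n : ℕ, 2 ≤ n →
      g n / (n : ℝ) ^ σ ≤ 2 ^ (-σ) * 2 ^ (3 / 2 : ℝ) * (g n / (n : ℝ) ^ (3 / 2 : ℝ)) := by
    intro n hn
    have hn0 : (0 : ℝ) < n := by exact_mod_cast (by omega : 0 < n)
    have hn2 : (2 : ℝ) ≤ n := by exact_mod_cast hn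
    have h1 : (n : ℝ) ^ σ = (n : ℝ) ^ (3 / 2 : ℝ) * (n : ℝ) ^ (σ - 3 / 2) := by
      rw [← Real.rpow_add hn0]; congr 1; ring
    have h2 : (2 : ℝ) ^ (σ - 3 / 2) ≤ (n : ℝ) ^ (σ - 3 / 2) :=
      Real.rpow_le_rpow (by norm_num) hn2 (by linarith)
    have h3 : (2 : ℝ) ^ (-σ) * 2 ^ (3 / 2 : ℝ) = (2 ^ (σ - 3 / 2))⁻¹ := by
      rw [← Real.rpow_add (by norm_num), ← Real.rpow_neg (by norm_num)]; congr 1; ring
    rw [h1, h3, ← div_div, div_eq_mul_inv _ ((n : ℝ) ^ (σ - 3 / 2)), mul_comm]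
    refine mul_le_mul_of_nonneg_right ?_ (div_nonneg (hg n) (by positivity))
    exact inv_anti₀ (by positivity) h2
  have hz : g 0 / ((0 : ℕ) : ℝ) ^ σ = 0 := by
    rw [Nat.cast_zero, Real.zero_rpow (by linarith), div_zero]
  have hbd : ∀ n : ℕ, g n / (n : ℝ) ^ σ ≤
      (if n = 1 then g 1 else 0) + 2 ^ (-σ) * 2 ^ (3 / 2 : ℝ) * (g n / (n : ℝ) ^ (3 / 2 : ℝ)) := by
    intro n
    have hnn : 0 ≤ 2 ^ (-σ) * 2 ^ (3 / 2 : ℝ) * (g n / (n : ℝ) ^ (3 / 2 : ℝ)) :=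
      mul_nonneg h0.le (div_nonneg (hg n) (by positivity))
    rcases n with _ | _ | n
    · rw [hz]; simpa using hnn
    · simp only [zero_add, if_true]
      have : g 1 / ((1 : ℕ) : ℝ) ^ σ = g 1 := by
        rw [Nat.cast_one, Real.one_rpow, div_one]
      rw [this]
      simp only [zero_add] at hnn
      linarith
    · rw [if_neg (by omega), zero_add]
      exact key _ (by omega)
  have hS1 : Summable fun n : ℕ => (if n = 1 then g 1 else (0 : ℝ)) :=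
    (hasSum_ite_eq 1 (g 1)).summable
  have hS2 := hs.mul_left (2 ^ (-σ) * 2 ^ (3 / 2 : ℝ))
  have hSS := hS1.add hS2
  have hsum : Summable (fun n : ℕ => g n / (n : ℝ) ^ σ) :=
    Summable.of_nonneg_of_le (fun n => div_nonneg (hg n) (by positivity)) hbd hSS
  refine ⟨hsum, fun a ha => ?_⟩
  refine (hsum.tsum_le_tsum hbd hSS).trans (le_of_eq ?_)
  rw [hS1.tsum_add hS2, tsum_ite_eq, tsum_mul_left, ha]
  ring

theorem norm_LS (f : ℕ → ℂ) (g : ℕ → ℝ) (hfg : ∀ n, n ≠ 0 → ‖f n‖ ≤ g n) {s : ℂ}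
    (hs : 0 < s.re) (hsum : Summable fun n : ℕ => g n / (n : ℝ) ^ s.re) :
    ‖LSeries f s‖ ≤ ∑' n : ℕ, g n / (n : ℝ) ^ s.re := by
  unfold LSeries
  have hb : ∀ n, ‖LSeries.term f s n‖ ≤ g n / (n : ℝ) ^ s.re := by
    intro n
    rw [LSeries.norm_term_eq]
    split_ifs with h
    · rw [h, Nat.cast_zero, Real.zero_rpow hs.ne', div_zero]
    · exact div_le_div_of_nonneg_right (hfg n h) (by positivity)
  exact tsum_of_norm_bounded hsum.hasSum hb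

/-- the bounds on the right -/
theorem right_bd : ∃ C : ℝ, 0 ≤ C ∧ ∀ s : ℂ, 3 / 2 ≤ s.re →
    |Real.log ‖riemannZeta s‖| ≤ C * 2 ^ (-s.re) ∧
    ‖deriv riemannZeta s / riemannZeta s‖ ≤ C * 2 ^ (-s.re) := by
  have hs1 : Summable fun n : ℕ => (1 : ℝ) / (n : ℝ) ^ (3 / 2 : ℝ) :=
    Real.summable_one_div_nat_rpow.2 (by norm_num)
  have hs2 : Summable fun n : ℕ => (Λ n : ℝ) / (n : ℝ) ^ (3 / 2 : ℝ) := by
    have h := ArithmeticFunction.LSeriesSummable_vonMangoldt (s := (3 / 2 : ℂ)) (by norm_num)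
    have h2 := h.norm
    refine h2.congr fun n => ?_
    rw [LSeries.norm_term_eq]
    split_ifs with h
    · rw [h]; simp
    · rw [Complex.norm_real, Real.norm_eq_abs, abs_of_nonneg ArithmeticFunction.vonMangoldt_nonneg]
      norm_num
  refine ⟨max (2 ^ (3 / 2 : ℝ) * ∑' n : ℕ, (1 : ℝ) / (n : ℝ) ^ (3 / 2 : ℝ))
    (2 ^ (3 / 2 : ℝ) * ∑' n : ℕ, (Λ n : ℝ) / (n : ℝ) ^ (3 / 2 : ℝ)), ?_, ?_⟩
  · refine le_max_of_le_left (mul_nonneg (by positivity) (tsum_nonneg fun n => by positivity))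
  intro s hs
  have hs' : 1 < s.re := by linarith
  have hs0 : 0 < s.re := by linarith
  have hp : (0 : ℝ) < 2 ^ (-s.re) := by positivity
  obtain ⟨a1, a2⟩ := tail_le (fun _ => 1) (fun _ => zero_le_one) hs1 hs
  obtain ⟨b1, b2⟩ := tail_le (fun n => (Λ n : ℝ))
    (fun _ => ArithmeticFunction.vonMangoldt_nonneg) hs2 hs
  have hz : ‖riemannZeta s‖ ≤ ∑' n : ℕ, (1 : ℝ) / (n : ℝ) ^ s.re := by
    rw [← LSeries_one_eq_riemannZeta hs']
    exact norm_LS _ _ (fun n _ => by simp) hs0 a1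
  have hzi : ‖riemannZeta s‖⁻¹ ≤ ∑' n : ℕ, (1 : ℝ) / (n : ℝ) ^ s.re := by
    have h1 : riemannZeta s * LSeries (fun n => ((ArithmeticFunction.moebius n : ℤ) : ℂ)) s = 1 := by
      have := ArithmeticFunction.LSeries_zeta_mul_Lseries_moebius hs'
      rwa [ArithmeticFunction.LSeries_zeta_eq_riemannZeta hs'] at this
    have h2 : ‖riemannZeta s‖⁻¹ = ‖LSeries (fun n => ((ArithmeticFunction.moebius n : ℤ) : ℂ)) s‖ := by
      rw [← norm_inv]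
      congr 1
      exact inv_eq_of_mul_eq_one_right h1
    rw [h2]
    refine norm_LS _ _ (fun n _ => ?_) hs0 a1
    have h3 := ArithmeticFunction.abs_moebius_le_one (n := n)
    have h4 : ‖((ArithmeticFunction.moebius n : ℤ) : ℂ)‖ = ((|ArithmeticFunction.moebius n| : ℤ) : ℝ) := by
      rw [Complex.norm_intCast, Int.cast_abs]
    rw [h4]
    exact_mod_cast h3
  have hzpos : 0 < ‖riemannZeta s‖ := norm_pos_iff.2 (riemannZeta_ne_zero_of_one_lt_re hs')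
  have hZ := a2 1 rfl
  constructor
  · have c1 : Real.log ‖riemannZeta s‖ ≤ (∑' n : ℕ, (1 : ℝ) / (n : ℝ) ^ s.re) - 1 :=
      (Real.log_le_sub_one_of_pos hzpos).trans (by linarith)
    have c2 : -Real.log ‖riemannZeta s‖ ≤ (∑' n : ℕ, (1 : ℝ) / (n : ℝ) ^ s.re) - 1 := by
      rw [← Real.log_inv]
      exact (Real.log_le_sub_one_of_pos (by positivity)).trans (by linarith)
    have c3 : |Real.log ‖riemannZeta s‖| ≤ (∑' n : ℕ, (1 : ℝ) / (n : ℝ) ^ s.re) - 1 :=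
      abs_le.2 ⟨by linarith, c1⟩
    refine c3.trans ?_
    have c4 : 2 ^ (3 / 2 : ℝ) * ∑' n : ℕ, (1 : ℝ) / (n : ℝ) ^ (3 / 2 : ℝ) ≤
      max (2 ^ (3 / 2 : ℝ) * ∑' n : ℕ, (1 : ℝ) / (n : ℝ) ^ (3 / 2 : ℝ))
        (2 ^ (3 / 2 : ℝ) * ∑' n : ℕ, (Λ n : ℝ) / (n : ℝ) ^ (3 / 2 : ℝ)) := le_max_left _ _
    have c5 := mul_le_mul_of_nonneg_right c4 hp.le
    linarith
  · have d1 : deriv riemannZeta s / riemannZeta s = -LSeries (fun n => ((Λ n : ℝ) : ℂ)) s := by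
      rw [ArithmeticFunction.LSeries_vonMangoldt_eq_deriv_riemannZeta_div hs']
      ring
    rw [d1, norm_neg]
    have d2 := norm_LS (fun n => ((Λ n : ℝ) : ℂ)) (fun n => (Λ n : ℝ)) (fun n _ => by
      rw [Complex.norm_real, Real.norm_eq_abs, abs_of_nonneg ArithmeticFunction.vonMangoldt_nonneg])
      hs0 b1
    have d3 := b2 0 (by simp)
    have c4 : 2 ^ (3 / 2 : ℝ) * ∑' n : ℕ, (Λ n : ℝ) / (n : ℝ) ^ (3 / 2 : ℝ) ≤
      max (2 ^ (3 / 2 : ℝ) * ∑' n : ℕ, (1 : ℝ) / (n : ℝ) ^ (3 / 2 : ℝ))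
        (2 ^ (3 / 2 : ℝ) * ∑' n : ℕ, (Λ n : ℝ) / (n : ℝ) ^ (3 / 2 : ℝ)) := le_max_right _ _
    have c5 := mul_le_mul_of_nonneg_right c4 hp.le
    linarith

end Pool.Agent.Y141.OJ
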